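import Pool.Agent.Work.MP_612dae_nt.AlmFin

/-!
# Almost all real quadratic fields: periodic continued fractions bounded by `√δ / (log δ)^c`

For every `c < log 2 = 0.693…` there is `κ > 0` such that for all large `X`, for all but at most
`X / (log X)^κ` of the squarefree integers `1 < δ ≤ X`, the real quadratic field `ℚ(√δ)` contains
infinitely many periodic continued fractions with all partial quotients at most
`√δ / (log δ)^c`.  The bounds on record for all fields are `4 √δ + 1` and, for the discriminant
`D`, `√D + 2`.

Proof.  By our result `LogUnit`, `ℚ(√δ)` contains infinitely many periodic continued fractions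
bounded by `213000 log ε` for every unit `ε = T + U √δ > 1`.  A small unit is found by a
pigeonhole argument.  For a divisor `d` of `δ` and a scale `2^k` Dirichlet's theorem gives a
primitive vector `(x, y)` with `|d x² - (δ/d) y²| ≤ 3 √δ`, whose value `n` comes with a root of
`δ` modulo `n`.  If two of these vectors have the same value and the same root, their quotient is
of the form `P √a + Q √b` with `a b = δ` and integers `P`, `Q`, and its square is a unit.  So
`log ε` is at most the number of pairs (value, root), with weights, divided by the number of
divisors of `δ`, up to `O(log δ)`; the average over `δ ≤ X` of the number of pairs is `O(√X)`, and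
almost all squarefree `δ ≤ X` have at least `(log X)^c'` divisors, for every `c' < log 2`.

The definitions used in the statement (`step`, `PerBdd`, `pset`) are in
`Pool/Agent/Work/MP_612dae_nt/Defs.lean`.
-/

namespace Pool.Agent.Results.MP_612dae_nt.AlmostAllFields

open Pool.Agent.BCF Filter

theorem result (c : ℝ) (hc : 0 ≤ c) (hc2 : c < Real.log 2) :
    ∃ κ : ℝ, 0 < κ ∧ ∀ᶠ X : ℕ in atTop,
      (Set.ncard {δ : ℕ | 1 < δ ∧ δ ≤ X ∧ Squarefree δ ∧
        ¬ (pset ⌊√(δ : ℝ) / Real.log δ ^ c⌋₊ δ).Infinite} : ℝ) ≤
        X / Real.log X ^ κ :=
  almost_all hc hc2

end Pool.Agent.Results.MP_612dae_nt.AlmostAllFields
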