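import Pool.Agent.Work.MP_612dae_nt.AllMain

/-!
# Infinitely many periodic continued fractions with a small bound in every real quadratic field

For every non-square `δ` the field `ℚ(√δ)` contains infinitely many periodic continued fractions
with all partial quotients at most `⌊√δ⌋ + 2` if `δ` is `1` modulo `4`, and at most
`2 ⌊√δ⌋ + 1` otherwise.  In terms of the discriminant `D` of `ℤ[(1 + √δ)/2]` or `ℤ[√δ]` the bound
is at most `√D + 2`; the bound on record was `4 √δ + 1`.
-/

namespace Pool.Agent.Results.MP_612dae_nt.EveryField

open Pool.Agent.BCF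

theorem result (δ : ℕ) (hδ : ¬ IsSquare δ) :
    (pset (if δ % 4 = 1 then Nat.sqrt δ + 2 else 2 * Nat.sqrt δ + 1) δ).Infinite :=
  all_fields hδ

end Pool.Agent.Results.MP_612dae_nt.EveryField
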