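import Pool.Agent.Work.MP_612dae_nt.LogFin

/-!
# Infinitely many periodic continued fractions bounded by a multiple of the regulator

Let `δ` be a natural number that is not a square and let `ε = (t + u √δ) / 2` with natural
numbers `t`, `u`, `u ≥ 1`, and `t² - δ u² = 4` or `t² - δ u² = -4`, so that `ε > 1` is a unit of
norm `1` or `-1`.  Then `ℚ(√δ)` contains infinitely many periodic continued fractions all of
whose partial quotients are at most `213000 log ε`.  (For squarefree `δ` every unit `> 1` of the
ring of integers of `ℚ(√δ)` has this form.)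

The bounds on record are `4 √δ + 1` and, for the discriminant `D` of `ℤ[(1 + √δ)/2]` or `ℤ[√δ]`,
`√D + 2`.  For fields with a small unit, such as `δ = n² + 1`, `n² - 1`, `n² + 4`, `n² - 4`, the
new bound is of size `log δ`.

Proof.  Let `t` be the trace of a unit `ε` of norm `1`, let `U_0 = 0`, `U_1 = 1`,
`U_{n+2} = t U_{n+1} - U_n`, and let `f = U_12 / t`.  For `j ≥ 1` the numbers
`a = U_{24j+1} - U_{24j}` and `b = U_{24j+1} + U_{24j}` are coprime and are `1` modulo `f`.  The
unit `ε^{48j+1} = a b ε - U_{48j}` acts on the lattice `Λ = ℤ b + ℤ a ε`, and away from two short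
ranges of scales `Λ` is close to one of two lattices on which `ε^12 = U_12 ε - U_11` acts.  All
these maps preserve every sublattice `p v₁ + q v₂ ≡ 0` modulo `f`, so that modulo them there are
few vectors of small norm in `Λ`, and a count (union bound) gives a sublattice of index `f`
without nonzero vectors of norm less than `1 / (C log ε)` times its covolume.  It gives a periodic
continued fraction in `ℚ(√δ)` with all partial quotients at most `C log ε`, and the discriminants
of these numbers tend to infinity with `j`.

The definitions used in the statement (`step`, `PerBdd`, `pset`) are in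
`Pool/Agent/Work/MP_612dae_nt/Defs.lean`.
-/

namespace Pool.Agent.Results.MP_612dae_nt.LogUnit

open Pool.Agent.BCF

theorem result (δ t u : ℕ) (hδ : ¬ IsSquare δ) (hu : 1 ≤ u)
    (h : t ^ 2 = δ * u ^ 2 + 4 ∨ t ^ 2 + 4 = δ * u ^ 2) :
    (pset ⌊213000 * Real.log (((t : ℝ) + u * √(δ : ℝ)) / 2)⌋₊ δ).Infinite :=
  log_inf hδ hu h

end Pool.Agent.Results.MP_612dae_nt.LogUnit
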