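import Pool.Agent.Work.MP_612dae_nt.Assembly1

/-!
# Many real quadratic fields with infinitely many bounded periodic continued fractions

For every bound `m ≥ 2` and every exponent `s < max (51/200, 1/2 - 8/m, dim_H(E_m)/2)`, and for
arbitrary finite disjoint sets `P`, `Q`, `R` of primes, there are, for all large `X`, at least
`X ^ s` real quadratic fields `ℚ(√δ)` with `δ ≤ X` squarefree in which the primes of `P` split,
those of `Q` are inert, those of `R` are ramified, and which contain infinitely many periodic
continued fractions with all partial quotients in `1, …, m`. For `m = 2` this is at least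
`X ^ s` for every `s < 51/200`, with all partial quotients in `{1, 2}`; the exponent `1/2` is
approached as `m` grows.

The definitions used in the statement (`fieldCount`, `pset`, `PerBdd`, `step`, `Em`, `SplitAt`,
`InertAt`, `RamAt`) are in `Pool/Agent/Work/MP_612dae_nt/Defs.lean`.
-/

namespace Pool.Agent.Results.MP_612dae_nt.ManyFields

open Pool.Agent.BCF Filter

theorem result (m : ℕ) (hm : 2 ≤ m) (s : ℝ)
    (hs : s < max (max (51 / 200 : ℝ) (1 / 2 - 8 / (m : ℝ))) ((dimH (Em m)).toReal / 2))
    (P Q R : Finset ℕ) (hP : ∀ p ∈ P, p.Prime) (hQ : ∀ p ∈ Q, p.Prime)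
    (hR : ∀ p ∈ R, p.Prime) (hPQ : Disjoint P Q) (hPR : Disjoint P R) (hQR : Disjoint Q R) :
    ∀ᶠ X : ℝ in atTop, X ^ s ≤ (fieldCount m P Q R X : ℝ) :=
  count_main1 hm hs P Q R hP hQ hR hPQ hPR hQR

end Pool.Agent.Results.MP_612dae_nt.ManyFields
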